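import Pool.Agent.Helper36.KL.Goals

/-! MP_66be51_an, project KV, packet MOL: mollifiers on `L²` of the line. -/

open Set Filter Topology MeasureTheory
open scoped ContDiff

namespace Pool.Agent.Helper32.KL

open Pool.Agent.Helper36.KL

noncomputable section

/-- convolution -/
def cv (g h : ℝ → ℝ) (x : ℝ) : ℝ := ∫ t, g t * h (x - t)

lemma cv_eq (g h : ℝ → ℝ) : cv g h = convolution g h (ContinuousLinearMap.mul ℝ ℝ) volume := rfl

lemma young_pt (g h : ℝ → ℝ) (hg : Integrable g) (hgb : ∃ C, ∀ t, |g t| ≤ C)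
    (hh : MemLp h 2 volume) (x : ℝ) :
    (cv g h x) ^ 2 ≤ (∫ t, |g t|) * ∫ t, |g t| * h (x - t) ^ 2 := by
  obtain ⟨C, hC⟩ := hgb
  have i2 : Integrable (fun t => h (x - t) ^ 2) := hh.integrable_sq.comp_sub_left x
  have ih : AEStronglyMeasurable (fun t => h (x - t)) volume :=
    hh.aestronglyMeasurable.comp_quasiMeasurePreserving
      (Measure.measurePreserving_sub_left volume x).quasiMeasurePreserving
  have i3 : Integrable (fun t => |g t| * h (x - t) ^ 2) := by
    refine i2.bdd_mul (c := C) hg.abs.aestronglyMeasurable (ae_of_all _ fun t => ?_)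
    rw [Real.norm_eq_abs, abs_abs]; exact hC t
  have i4 : Integrable (fun t => |g t| * |h (x - t)|) := by
    refine (hg.abs.add i3).mono' (hg.abs.aestronglyMeasurable.mul ih.norm) (ae_of_all _ fun t => ?_)
    rw [Pi.add_apply, Real.norm_eq_abs, abs_mul, abs_abs, abs_abs]
    have h1 := abs_nonneg (g t)
    have h2 : |h (x - t)| ≤ 1 + h (x - t) ^ 2 := by
      rw [← sq_abs]; nlinarith [sq_nonneg (|h (x - t)| - 1), abs_nonneg (h (x - t))]
    nlinarith [mul_le_mul_of_nonneg_left h2 h1]
  set c := ∫ t, |g t| * |h (x - t)| with hc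
  have h1 : |cv g h x| ≤ c := by
    rw [hc]
    have h0 := norm_integral_le_integral_norm (μ := (volume : Measure ℝ)) (fun t => g t * h (x - t))
    refine (show |cv g h x| ≤ _ from h0).trans (le_of_eq ?_)
    congr 1
    funext t
    rw [Real.norm_eq_abs, abs_mul]
  have h2 : ∀ l : ℝ, 0 ≤ (∫ t, |g t|) * (l * l) + (-2 * c) * l + ∫ t, |g t| * h (x - t) ^ 2 := by
    intro l
    have h3 : 0 ≤ ∫ t, |g t| * (|h (x - t)| - l) ^ 2 :=
      integral_nonneg fun t => mul_nonneg (abs_nonneg _) (sq_nonneg _)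
    have h4 : (fun t => |g t| * (|h (x - t)| - l) ^ 2) = fun t =>
        ((l * l) * |g t| + (-2 * l) * (|g t| * |h (x - t)|)) + |g t| * h (x - t) ^ 2 := by
      funext t
      have := sq_abs (h (x - t))
      rw [← this]; ring
    have i5 : Integrable (fun t => (l * l) * |g t| + (-2 * l) * (|g t| * |h (x - t)|)) :=
      (hg.abs.const_mul _).add (i4.const_mul _)
    rw [h4, integral_add i5 i3, integral_add (hg.abs.const_mul _) (i4.const_mul _),
      integral_const_mul, integral_const_mul] at h3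
    linarith
  have h3 := discrim_le_zero h2
  unfold discrim at h3
  have h4 : c ^ 2 ≤ (∫ t, |g t|) * ∫ t, |g t| * h (x - t) ^ 2 := by nlinarith
  calc (cv g h x) ^ 2 = |cv g h x| ^ 2 := (sq_abs _).symm
    _ ≤ c ^ 2 := by gcongr
    _ ≤ _ := h4

lemma young (g h : ℝ → ℝ) (hg : Integrable g) (hgb : ∃ C, ∀ t, |g t| ≤ C)
    (hh : MemLp h 2 volume) (hm : AEStronglyMeasurable (cv g h) volume) :
    Integrable (fun x => (cv g h x) ^ 2) ∧
      ∫ x, (cv g h x) ^ 2 ≤ (∫ t, |g t|) ^ 2 * ∫ x, h x ^ 2 := by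
  have i1 : Integrable (fun x => ∫ t, |g t| * h (x - t) ^ 2) :=
    Integrable.integrable_convolution (ContinuousLinearMap.mul ℝ ℝ) hg.abs hh.integrable_sq
  have e1 : ∫ x, ∫ t, |g t| * h (x - t) ^ 2 = (∫ t, |g t|) * ∫ x, h x ^ 2 :=
    integral_convolution (ContinuousLinearMap.mul ℝ ℝ) hg.abs hh.integrable_sq
  have i2 : Integrable (fun x => (cv g h x) ^ 2) := by
    refine (i1.const_mul (∫ t, |g t|)).mono' (hm.pow 2) (ae_of_all _ fun x => ?_)
    rw [Real.norm_eq_abs, abs_of_nonneg (sq_nonneg _)]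
    exact young_pt g h hg hgb hh x
  refine ⟨i2, ?_⟩
  calc ∫ x, (cv g h x) ^ 2 ≤ ∫ x, (∫ t, |g t|) * ∫ t, |g t| * h (x - t) ^ 2 :=
        integral_mono i2 (i1.const_mul _) fun x => young_pt g h hg hgb hh x
    _ = _ := by rw [integral_const_mul, e1]; ring

/-- the bump -/
def bump (n : ℕ) : ContDiffBump (0 : ℝ) :=
  ⟨1 / (2 * ((n : ℝ) + 1)), 1 / ((n : ℝ) + 1), by positivity, by
    apply one_div_lt_one_div_of_lt (by positivity)
    have : (0 : ℝ) < (n : ℝ) + 1 := by positivity
    linarith⟩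

/-- the mollifier -/
def rho (n : ℕ) : ℝ → ℝ := (bump n).normed volume

lemma rho_smooth (n : ℕ) : ContDiff ℝ ∞ (rho n) := (bump n).contDiff_normed
lemma rho_cpt (n : ℕ) : HasCompactSupport (rho n) := (bump n).hasCompactSupport_normed
lemma rho_nonneg (n : ℕ) (x : ℝ) : 0 ≤ rho n x := (bump n).nonneg_normed x
lemma rho_int (n : ℕ) : ∫ x, rho n x = 1 := (bump n).integral_normed
lemma rho_neg (n : ℕ) (x : ℝ) : rho n (-x) = rho n x := (bump n).normed_neg x
lemma rho_supp (n : ℕ) : Function.support (rho n) = Metric.ball 0 (1 / ((n : ℝ) + 1)) :=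
  (bump n).support_normed_eq

lemma cpt_iter {g : ℝ → ℝ} (hc : HasCompactSupport g) (k : ℕ) :
    HasCompactSupport (iteratedDeriv k g) := by
  induction k with
  | zero => simpa using hc
  | succ k ih => rw [iteratedDeriv_succ]; exact ih.deriv

lemma iter_cv {g h : ℝ → ℝ} (hg : ContDiff ℝ ∞ g) (hc : HasCompactSupport g)
    (hh : MemLp h 2 volume) (k : ℕ) : iteratedDeriv k (cv g h) = cv (iteratedDeriv k g) h := by
  induction k with
  | zero => simp
  | succ k ih =>
    rw [iteratedDeriv_succ, ih, iteratedDeriv_succ]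
    funext x
    exact (HasCompactSupport.hasDerivAt_convolution_left (ContinuousLinearMap.mul ℝ ℝ)
      (cpt_iter hc k) (contDiff_nat (contDiff_iter hg k) 1)
      (hh.locallyIntegrable (by norm_num)) x).deriv

lemma cont_bdd {g : ℝ → ℝ} (hg : Continuous g) (hc : HasCompactSupport g) :
    ∃ C, ∀ t, |g t| ≤ C := hg.bounded_above_of_compact_support hc

lemma smooth_cv {g h : ℝ → ℝ} (hg : ContDiff ℝ ∞ g) (hc : HasCompactSupport g)
    (hh : MemLp h 2 volume) : ContDiff ℝ ∞ (cv g h) :=
  HasCompactSupport.contDiff_convolution_left (ContinuousLinearMap.mul ℝ ℝ) hc hg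
    (hh.locallyIntegrable (by norm_num))

lemma young_iter {g h : ℝ → ℝ} (hg : ContDiff ℝ ∞ g) (hc : HasCompactSupport g)
    (hh : MemLp h 2 volume) (k : ℕ) :
    Integrable (fun x => (iteratedDeriv k (cv g h) x) ^ 2) ∧
      ∫ x, (iteratedDeriv k (cv g h) x) ^ 2 ≤ (∫ t, |iteratedDeriv k g t|) ^ 2 * ∫ x, h x ^ 2 := by
  rw [iter_cv hg hc hh k]
  have hgk := contDiff_iter hg k
  have hck := cpt_iter hc k
  exact young _ _ (hgk.continuous.integrable_of_hasCompactSupport hck)
    (cont_bdd hgk.continuous hck) hh (smooth_cv hgk hck hh).continuous.aestronglyMeasurable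

lemma cv_mem {g h : ℝ → ℝ} (hg : ContDiff ℝ ∞ g) (hc : HasCompactSupport g)
    (hh : MemLp h 2 volume) : cv g h ∈ HI := by
  refine ⟨smooth_cv hg hc hh, fun k => ?_⟩
  rw [memLp_two_iff_integrable_sq]
  · exact (young_iter hg hc hh k).1
  · exact (contDiff_iter (smooth_cv hg hc hh) k).continuous.aestronglyMeasurable

lemma cv_congr {g h h' : ℝ → ℝ} (e : h =ᵐ[volume] h') : cv g h = cv g h' := by
  funext x
  refine integral_congr_ae ?_
  have := (Measure.measurePreserving_sub_left volume x).quasiMeasurePreserving.ae_eq_comp e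
  filter_upwards [this] with t ht
  have ht' : h (x - t) = h' (x - t) := ht
  rw [ht']

lemma cv_integrable {g h : ℝ → ℝ} (hg : Continuous g) (hc : HasCompactSupport g)
    (hh : MemLp h 2 volume) (x : ℝ) : Integrable (fun t => g t * h (x - t)) :=
  (hc.convolutionExists_left (ContinuousLinearMap.mul ℝ ℝ) hg
    (hh.locallyIntegrable (by norm_num))) x

/-- the mollification operator -/
def Jm (n : ℕ) : Lp ℝ 2 (volume : Measure ℝ) →ₗ[ℝ] X where
  toFun h := ⟨cv (rho n) h, cv_mem (rho_smooth n) (rho_cpt n) (Lp.memLp h)⟩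
  map_add' h h' := by
    apply Subtype.ext
    show cv (rho n) (h + h' : Lp ℝ 2 (volume : Measure ℝ)) = cv (rho n) h + cv (rho n) h'
    rw [cv_congr (Lp.coeFn_add h h')]
    funext x
    show ∫ t, rho n t * (h (x - t) + h' (x - t)) = _
    rw [Pi.add_apply]
    unfold cv
    rw [← integral_add (cv_integrable (rho_smooth n).continuous (rho_cpt n) (Lp.memLp h) x)
      (cv_integrable (rho_smooth n).continuous (rho_cpt n) (Lp.memLp h') x)]
    congr 1
    funext t
    ring
  map_smul' c h := by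
    apply Subtype.ext
    show cv (rho n) (c • h : Lp ℝ 2 (volume : Measure ℝ)) = c • cv (rho n) h
    rw [cv_congr (Lp.coeFn_smul c h)]
    funext x
    show ∫ t, rho n t * (c * h (x - t)) = c * cv (rho n) h x
    unfold cv
    rw [← integral_const_mul]
    congr 1
    funext t
    ring

lemma norm_Lp_sq (h : Lp ℝ 2 (volume : Measure ℝ)) : ‖h‖ ^ 2 = ∫ x, h x ^ 2 := by
  rw [← real_inner_self_eq_norm_sq, L2.inner_def]
  congr 1
  funext x
  simp [pow_two]

lemma norm_iota (x : X) : ‖iotaX x‖ ^ 2 = ∫ t, x.1 t ^ 2 := by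
  rw [norm_Lp_sq]
  refine integral_congr_ae ?_
  filter_upwards [MemLp.coeFn_toLp (memLp x.2)] with t ht
  have : (iotaX x : ℝ → ℝ) t = x.1 t := ht
  rw [this]

lemma Jm_iota (n : ℕ) (x : X) : (Jm n (iotaX x)).1 = cv (rho n) x.1 :=
  cv_congr (MemLp.coeFn_toLp (memLp x.2))

/-- derivative of the convolution falls on the second factor -/
lemma cv_deriv_right {g u : ℝ → ℝ} (hg : ContDiff ℝ ∞ g) (hc : HasCompactSupport g) (hu : u ∈ HI) :
    cv (iteratedDeriv 1 g) u = cv g (iteratedDeriv 1 u) := by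
  funext x
  unfold cv
  have hd : ∀ t, HasDerivAt (fun t => g t * u (x - t))
      (iteratedDeriv 1 g t * u (x - t) - g t * iteratedDeriv 1 u (x - t)) t := by
    intro t
    have h1 : HasDerivAt g (iteratedDeriv 1 g t) t := by simpa using hasDerivAt_iter hg 0 t
    have h2 : HasDerivAt u (iteratedDeriv 1 u (x - t)) (x - t) := by
      simpa using hasDerivAt_iter hu.1 0 (x - t)
    have h3 : HasDerivAt (fun t => x - t) (-1) t := by
      simpa using (hasDerivAt_id t).const_sub x
    have h4 : HasDerivAt (fun t => u (x - t)) (iteratedDeriv 1 u (x - t) * (-1)) t := h2.comp t h3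
    refine (h1.mul h4).congr_deriv ?_
    ring
  have cu : ∀ {v : ℝ → ℝ}, Continuous v → Continuous (fun t => v (x - t)) := fun hv =>
    hv.comp (continuous_const.sub continuous_id)
  have i1 : Integrable (fun t => iteratedDeriv 1 g t * u (x - t)) :=
    ((contDiff_iter hg 1).continuous.mul (cu hu.1.continuous)).integrable_of_hasCompactSupport
      ((cpt_iter hc 1).mul_right)
  have i2 : Integrable (fun t => g t * iteratedDeriv 1 u (x - t)) :=
    (hg.continuous.mul (cu (contDiff_iter hu.1 1).continuous)).integrable_of_hasCompactSupport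
      hc.mul_right
  have i3 : Integrable (fun t => g t * u (x - t)) :=
    (hg.continuous.mul (cu hu.1.continuous)).integrable_of_hasCompactSupport hc.mul_right
  have h := integral_eq_zero_of_hasDerivAt_of_integrable hd (i1.sub i2) i3
  rw [integral_sub i1 i2] at h
  linarith

lemma iter_cv_right {g u : ℝ → ℝ} (hg : ContDiff ℝ ∞ g) (hc : HasCompactSupport g) (hu : u ∈ HI)
    (k : ℕ) : iteratedDeriv k (cv g u) = cv g (iteratedDeriv k u) := by
  induction k with
  | zero => simp
  | succ k ih =>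
    rw [iteratedDeriv_succ, ih]
    have h1 := iter_cv hg hc (memLp (iter_mem hu k)) 1
    have h2 : deriv (cv g (iteratedDeriv k u)) = cv (iteratedDeriv 1 g) (iteratedDeriv k u) := by
      rw [← h1, iteratedDeriv_one]
    rw [h2, cv_deriv_right hg hc (iter_mem hu k), iter_iter, Nat.add_comm]

/-- symmetry -/
lemma cv_symm (n : ℕ) {u v : ℝ → ℝ} (hu : u ∈ HI) (hv : v ∈ HI) :
    ∫ x, cv (rho n) u x * v x = ∫ x, u x * cv (rho n) v x := by
  have hg := (rho_smooth n).continuous
  have hgi : Integrable (rho n) := hg.integrable_of_hasCompactSupport (rho_cpt n)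
  have key : ∀ {a b : ℝ → ℝ}, a ∈ HI → b ∈ HI →
      Integrable (Function.uncurry (fun x t : ℝ => rho n t * a (x - t) * b x))
        (volume.prod volume) := by
    intro a b ha hb
    have j1 : Integrable (fun p : ℝ × ℝ => rho n p.2 * a (p.1 - p.2) ^ 2) (volume.prod volume) :=
      Integrable.convolution_integrand (ContinuousLinearMap.mul ℝ ℝ) hgi (int_sq ha)
    have j2 : Integrable (fun p : ℝ × ℝ => b p.1 ^ 2 * rho n p.2) (volume.prod volume) :=
      (int_sq hb).mul_prod hgi
    have cm : Continuous (fun p : ℝ × ℝ => rho n p.2 * a (p.1 - p.2) * b p.1) :=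
      ((hg.comp continuous_snd).mul (ha.1.continuous.comp (continuous_fst.sub continuous_snd))).mul
        (hb.1.continuous.comp continuous_fst)
    refine (j1.add j2).mono' cm.aestronglyMeasurable (ae_of_all _ fun p => ?_)
    show ‖rho n p.2 * a (p.1 - p.2) * b p.1‖ ≤ rho n p.2 * a (p.1 - p.2) ^ 2 + b p.1 ^ 2 * rho n p.2
    rw [Real.norm_eq_abs, mul_assoc, abs_mul, abs_of_nonneg (rho_nonneg n _), abs_mul]
    have h1 := rho_nonneg n p.2
    have h2 : |a (p.1 - p.2)| * |b p.1| ≤ a (p.1 - p.2) ^ 2 + b p.1 ^ 2 := by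
      rw [← sq_abs (a (p.1 - p.2)), ← sq_abs (b p.1)]
      nlinarith [sq_nonneg (|a (p.1 - p.2)| - |b p.1|), sq_nonneg (|a (p.1 - p.2)|), sq_nonneg (|b p.1|)]
    nlinarith [mul_le_mul_of_nonneg_left h2 h1]
  have e1 : ∫ x, cv (rho n) u x * v x = ∫ t, ∫ x, rho n t * u (x - t) * v x := by
    rw [← integral_integral_swap (key hu hv)]
    congr 1
    funext x
    unfold cv
    rw [← integral_mul_const]
  have e2 : ∫ x, u x * cv (rho n) v x = ∫ t, ∫ x, rho n t * v (x - t) * u x := by
    rw [← integral_integral_swap (key hv hu)]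
    congr 1
    funext x
    unfold cv
    rw [← integral_const_mul]
    congr 1
    funext t
    ring
  rw [e1, e2]
  rw [← integral_neg_eq_self (μ := (volume : Measure ℝ)) (f := fun t => ∫ x, rho n t * u (x - t) * v x)]
  congr 1
  funext t
  rw [rho_neg, ← integral_sub_right_eq_self (fun x => rho n t * u (x - -t) * v x) t]
  congr 1
  funext x
  have : x - t - -t = x := by ring
  rw [this]
  ring

/-! ### The error -/

/-- primitive of the mollifier -/
def Pr (n : ℕ) (s : ℝ) : ℝ := ∫ t in (-(1 / ((n : ℝ) + 1)))..s, rho n t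

/-- the kernel of `cv (rho n) u - u` applied to `u'` -/
def ker (n : ℕ) (s : ℝ) : ℝ :=
  (Ioc (-(1 / ((n : ℝ) + 1))) 0).indicator (Pr n) s +
    (Ioc 0 (1 / ((n : ℝ) + 1))).indicator (fun s => Pr n s - 1) s

lemma Pr_deriv (n : ℕ) (s : ℝ) : HasDerivAt (Pr n) (rho n s) s :=
  intervalIntegral.integral_hasDerivAt_right ((rho_smooth n).continuous.intervalIntegrable _ _)
    ((rho_smooth n).continuous.stronglyMeasurableAtFilter _ _) (rho_smooth n).continuous.continuousAt

lemma Pr_cont (n : ℕ) : Continuous (Pr n) :=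
  continuous_iff_continuousAt.2 fun s => (Pr_deriv n s).continuousAt

lemma e_pos (n : ℕ) : 0 < 1 / ((n : ℝ) + 1) := by positivity

lemma supp_sub (n : ℕ) (F : ℝ → ℝ) : Function.support (fun t => rho n t * F t) ⊆
    Ioc (-(1 / ((n : ℝ) + 1))) (1 / ((n : ℝ) + 1)) := by
  intro t ht
  have h1 : t ∈ Function.support (rho n) := by
    rw [Function.mem_support] at ht ⊢
    intro h0
    exact ht (by rw [h0, zero_mul])
  rw [rho_supp, Metric.mem_ball, Real.dist_eq, sub_zero, abs_lt] at h1
  exact ⟨h1.1, h1.2.le⟩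

lemma int_rho_mul (n : ℕ) (F : ℝ → ℝ) :
    ∫ t, rho n t * F t = ∫ t in (-(1 / ((n : ℝ) + 1)))..(1 / ((n : ℝ) + 1)), rho n t * F t :=
  (intervalIntegral.integral_eq_integral_of_support_subset (supp_sub n F)).symm

lemma Pr_end (n : ℕ) : Pr n (1 / ((n : ℝ) + 1)) = 1 := by
  have h := int_rho_mul n (fun _ => 1)
  simp only [mul_one] at h
  rw [rho_int] at h
  exact h.symm

lemma Pr_start (n : ℕ) : Pr n (-(1 / ((n : ℝ) + 1))) = 0 := intervalIntegral.integral_same

lemma Pr_mono (n : ℕ) : Monotone (Pr n) :=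
  monotone_of_hasDerivAt_nonneg (Pr_deriv n) (rho_nonneg n)

lemma Pr_mem (n : ℕ) (s : ℝ) (h1 : -(1 / ((n : ℝ) + 1)) ≤ s) (h2 : s ≤ 1 / ((n : ℝ) + 1)) :
    0 ≤ Pr n s ∧ Pr n s ≤ 1 := by
  refine ⟨?_, ?_⟩
  · rw [← Pr_start n]; exact Pr_mono n h1
  · rw [← Pr_end n]; exact Pr_mono n h2

lemma ker_formula (n : ℕ) {u : ℝ → ℝ} (hu : u ∈ HI) (x : ℝ) :
    cv (ker n) (iteratedDeriv 1 u) x = cv (rho n) u x - u x := by
  set e := 1 / ((n : ℝ) + 1) with he
  have he0 : 0 < e := e_pos n
  have cu : Continuous (fun t => iteratedDeriv 1 u (x - t)) :=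
    (contDiff_iter hu.1 1).continuous.comp (continuous_const.sub continuous_id)
  have cu0 : Continuous (fun t => u (x - t)) :=
    hu.1.continuous.comp (continuous_const.sub continuous_id)
  have hdu : ∀ t, HasDerivAt (fun t => -u (x - t)) (iteratedDeriv 1 u (x - t)) t := by
    intro t
    have h2 : HasDerivAt u (iteratedDeriv 1 u (x - t)) (x - t) := by
      simpa using hasDerivAt_iter hu.1 0 (x - t)
    have h3 : HasDerivAt (fun t => x - t) (-1) t := by
      simpa using (hasDerivAt_id t).const_sub x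
    have h4 : HasDerivAt (fun t => u (x - t)) (iteratedDeriv 1 u (x - t) * (-1)) t := h2.comp t h3
    exact h4.neg.congr_deriv (by ring)
  have c1 : Continuous (fun s => Pr n s * iteratedDeriv 1 u (x - s)) := (Pr_cont n).mul cu
  have c2 : Continuous (fun s => (Pr n s - 1) * iteratedDeriv 1 u (x - s)) :=
    ((Pr_cont n).sub continuous_const).mul cu
  have h1 : cv (ker n) (iteratedDeriv 1 u) x =
      (∫ s in (-e)..0, Pr n s * iteratedDeriv 1 u (x - s)) +
        ∫ s in (0 : ℝ)..e, (Pr n s - 1) * iteratedDeriv 1 u (x - s) := by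
    rw [intervalIntegral.integral_of_le (by linarith), intervalIntegral.integral_of_le he0.le,
      ← integral_indicator measurableSet_Ioc, ← integral_indicator measurableSet_Ioc,
      ← integral_add]
    · unfold cv ker
      congr 1
      funext s
      rw [add_mul, indicator_mul_left, indicator_mul_left]
    · rw [integrable_indicator_iff measurableSet_Ioc]
      exact (c1.integrableOn_Icc).mono_set Ioc_subset_Icc_self
    · rw [integrable_indicator_iff measurableSet_Ioc]
      exact (c2.integrableOn_Icc).mono_set Ioc_subset_Icc_self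
  have ii : ∀ (f : ℝ → ℝ) (a b : ℝ), Continuous f → IntervalIntegrable f volume a b :=
    fun f a b hf => hf.intervalIntegrable a b
  have h2 := intervalIntegral.integral_mul_deriv_eq_deriv_mul (a := -e) (b := 0)
    (fun s _ => Pr_deriv n s) (fun s _ => hdu s) (ii _ _ _ (rho_smooth n).continuous) (ii _ _ _ cu)
  have h3 := intervalIntegral.integral_mul_deriv_eq_deriv_mul (a := 0) (b := e)
    (fun s _ => (Pr_deriv n s).sub_const 1) (fun s _ => hdu s)
    (ii _ _ _ (rho_smooth n).continuous) (ii _ _ _ cu)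
  have h4 : cv (rho n) u x = (∫ s in (-e)..0, rho n s * u (x - s)) +
      ∫ s in (0 : ℝ)..e, rho n s * u (x - s) := by
    have c3 : Continuous (fun s => rho n s * u (x - s)) := (rho_smooth n).continuous.mul cu0
    rw [intervalIntegral.integral_add_adjacent_intervals (ii _ _ _ c3) (ii _ _ _ c3)]
    exact int_rho_mul n (fun t => u (x - t))
  have h5 : Pr n (-e) = 0 := Pr_start n
  have h6 : Pr n e = 1 := Pr_end n
  simp only [mul_neg, intervalIntegral.integral_neg] at h2 h3
  rw [h1, h2, h3, h4, h5, h6]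
  simp only [sub_zero]
  ring

lemma ker_abs (n : ℕ) (s : ℝ) :
    |ker n s| ≤ (Ioc (-(1 / ((n : ℝ) + 1))) (1 / ((n : ℝ) + 1))).indicator (fun _ => (1 : ℝ)) s := by
  set e := 1 / ((n : ℝ) + 1) with he
  have he0 : 0 < e := e_pos n
  unfold ker
  rw [← he]
  by_cases h1 : s ∈ Ioc (-e) 0
  · have h2 : s ∉ Ioc 0 e := fun h => absurd h.1 (not_lt.2 h1.2)
    have h3 : s ∈ Ioc (-e) e := ⟨h1.1, h1.2.trans he0.le⟩
    rw [indicator_of_mem h1, indicator_of_notMem h2, indicator_of_mem h3, add_zero]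
    have := Pr_mem n s h1.1.le (h1.2.trans he0.le)
    rw [abs_of_nonneg this.1]; exact this.2
  · by_cases h2 : s ∈ Ioc 0 e
    · have h3 : s ∈ Ioc (-e) e := ⟨by linarith [h2.1], h2.2⟩
      rw [indicator_of_notMem h1, indicator_of_mem h2, indicator_of_mem h3, zero_add]
      have := Pr_mem n s (by linarith [h2.1]) h2.2
      rw [abs_le]; constructor <;> linarith [this.1, this.2]
    · have h3 : s ∉ Ioc (-e) e := by
        intro h
        rcases le_or_gt s 0 with h0 | h0
        · exact h1 ⟨h.1, h0⟩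
        · exact h2 ⟨h0, h.2⟩
      rw [indicator_of_notMem h1, indicator_of_notMem h2, indicator_of_notMem h3]
      simp

lemma ker_meas (n : ℕ) : Measurable (ker n) := by
  unfold ker
  exact ((Pr_cont n).measurable.indicator measurableSet_Ioc).add
    (((Pr_cont n).measurable.sub_const 1).indicator measurableSet_Ioc)

lemma ker_int (n : ℕ) : Integrable (ker n) ∧ ∫ s, |ker n s| ≤ 2 * (1 / ((n : ℝ) + 1)) := by
  set e := 1 / ((n : ℝ) + 1) with he
  have he0 : 0 < e := e_pos n
  have hi : Integrable ((Ioc (-e) e).indicator (fun _ => (1 : ℝ))) := by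
    rw [integrable_indicator_iff measurableSet_Ioc]
    exact (continuous_const.integrableOn_Icc).mono_set Ioc_subset_Icc_self
  have h1 : Integrable (ker n) :=
    hi.mono' (ker_meas n).aestronglyMeasurable (ae_of_all _ fun s => ker_abs n s)
  refine ⟨h1, ?_⟩
  calc ∫ s, |ker n s| ≤ ∫ s, (Ioc (-e) e).indicator (fun _ => (1 : ℝ)) s :=
        integral_mono h1.abs hi fun s => ker_abs n s
    _ = 2 * e := by
        rw [integral_indicator measurableSet_Ioc, ← intervalIntegral.integral_of_le (by linarith),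
          intervalIntegral.integral_const]
        simp; ring

lemma err (n : ℕ) {u : ℝ → ℝ} (hu : u ∈ HI) :
    ∫ x, (cv (rho n) u x - u x) ^ 2 ≤ (2 * (1 / ((n : ℝ) + 1))) ^ 2 * ∫ x, iteratedDeriv 1 u x ^ 2 := by
  have hf : cv (ker n) (iteratedDeriv 1 u) = fun x => cv (rho n) u x - u x := by
    funext x; exact ker_formula n hu x
  have hm : AEStronglyMeasurable (cv (ker n) (iteratedDeriv 1 u)) volume := by
    rw [hf]
    exact ((smooth_cv (rho_smooth n) (rho_cpt n) (memLp hu)).continuous.sub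
      hu.1.continuous).aestronglyMeasurable
  have hb : ∃ C, ∀ t, |ker n t| ≤ C := by
    refine ⟨1, fun t => (ker_abs n t).trans ?_⟩
    exact indicator_le_self' (fun _ _ => zero_le_one) t
  obtain ⟨-, h⟩ := young (ker n) (iteratedDeriv 1 u) (ker_int n).1 hb (memLp (iter_mem hu 1)) hm
  rw [hf] at h
  refine h.trans ?_
  have h1 := (ker_int n).2
  have h2 : 0 ≤ ∫ t, |ker n t| := integral_nonneg fun _ => abs_nonneg _
  have h3 : 0 ≤ ∫ x, iteratedDeriv 1 u x ^ 2 := integral_nonneg fun _ => sq_nonneg _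
  gcongr

theorem mol : G_MOL := by
  refine ⟨⟨1, fun x => ?_⟩, Jm, fun n => 2 * (1 / ((n : ℝ) + 1)), ?_, ?_, ?_, ?_, ?_⟩
  · rw [norm_iota, BB_apply]
    simp [pow_two]
  · have := (tendsto_one_div_add_atTop_nhds_zero_nat (𝕜 := ℝ)).const_mul 2
    simpa using this
  · intro n m
    refine ⟨∑ k ∈ Finset.range (m + 1), (∫ t, |iteratedDeriv k (rho n) t|) ^ 2, fun h => ?_⟩
    rw [BB_apply, Finset.sum_mul, norm_Lp_sq]
    refine Finset.sum_le_sum fun k _ => ?_
    have := (young_iter (rho_smooth n) (rho_cpt n) (Lp.memLp h) k).2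
    simp only [← pow_two]
    exact this
  · intro n m x y
    rw [BB_apply, BB_apply]
    refine Finset.sum_congr rfl fun k _ => ?_
    rw [Jm_iota, Jm_iota, iter_cv_right (rho_smooth n) (rho_cpt n) x.2,
      iter_cv_right (rho_smooth n) (rho_cpt n) y.2]
    exact cv_symm n (iter_mem x.2 k) (iter_mem y.2 k)
  · intro n m x
    rw [BB_apply, BB_apply]
    refine Finset.sum_le_sum fun k _ => ?_
    simp only [← pow_two]
    rw [Jm_iota, iter_cv_right (rho_smooth n) (rho_cpt n) x.2]
    have h := (young_iter (rho_smooth n) (rho_cpt n) (memLp (iter_mem x.2 k)) 0).2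
    simp only [iteratedDeriv_zero] at h
    refine h.trans (le_of_eq ?_)
    have : ∫ t, |rho n t| = 1 := by
      rw [← rho_int n]
      congr 1
      funext t
      exact abs_of_nonneg (rho_nonneg n t)
    rw [this]; ring
  · intro n m x
    rw [BB_apply, BB_apply, Finset.mul_sum]
    have h1 : ∀ k, iteratedDeriv k (Jm n (iotaX x) - x).1 =
        fun t => cv (rho n) (iteratedDeriv k x.1) t - iteratedDeriv k x.1 t := by
      intro k
      have e : (Jm n (iotaX x) - x).1 = cv (rho n) x.1 + (-1 : ℝ) • x.1 := by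
        rw [Submodule.coe_sub, Jm_iota]
        funext t
        simp [sub_eq_add_neg]
      have cx : ContDiff ℝ ∞ ((-1 : ℝ) • x.1) := (HI.smul_mem (-1 : ℝ) x.2).1
      rw [e, iter_add (smooth_cv (rho_smooth n) (rho_cpt n) (memLp x.2)) cx,
        iter_smul x.2.1, iter_cv_right (rho_smooth n) (rho_cpt n) x.2]
      funext t
      simp [sub_eq_add_neg]
    have h2 : ∀ k, ∫ t, iteratedDeriv k (Jm n (iotaX x) - x).1 t *
        iteratedDeriv k (Jm n (iotaX x) - x).1 t ≤
        (2 * (1 / ((n : ℝ) + 1))) ^ 2 * ∫ t, iteratedDeriv (k + 1) x.1 t * iteratedDeriv (k + 1) x.1 t := by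
      intro k
      have h3 := err n (iter_mem x.2 k)
      rw [iter_iter, Nat.add_comm] at h3
      rw [h1 k]
      simp only [← pow_two]
      exact h3
    refine (Finset.sum_le_sum fun k _ => h2 k).trans ?_
    rw [Finset.sum_range_succ' (fun k => (2 * (1 / ((n : ℝ) + 1))) ^ 2 *
      ∫ t, iteratedDeriv k x.1 t * iteratedDeriv k x.1 t)]
    have h4 : 0 ≤ (2 * (1 / ((n : ℝ) + 1))) ^ 2 *
      ∫ t, iteratedDeriv 0 x.1 t * iteratedDeriv 0 x.1 t :=
      mul_nonneg (sq_nonneg _) (integral_nonneg fun _ => mul_self_nonneg _)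
    linarith

end

end Pool.Agent.Helper32.KL
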